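import Mathlib
import Pool.Agent.X321.DG.Main

/-!
A dominant rational self-map of projective 3-space with dynamical degree `1` whose degree sequence
grows faster than `n ^ 3`: the conjecture on polynomial corrections fails for `N = 3`.
-/

set_option autoImplicit false

namespace Pool.Agent.Results.MP_55ef7c_ag.GrowthFour

open Pool.Agent.H905R3 Filter

/-- `e n` is the degree of the `n`-th iterate (written without common factors) for `n ≥ 1`. -/
def IsDegreeSequence {K : Type*} [Field K] {N : ℕ} (f : RatMap K N) (e : ℕ → ℕ) : Prop :=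
  ∀ n, 1 ≤ n → (∃ g, f.IsIterate n g) ∧ ∀ g, f.IsIterate n g → g.degree = e n

/-- `δ` is the dynamical degree of a map with the degree sequence `e`. -/
def IsDynamicalDegree (e : ℕ → ℕ) (δ : ℝ) : Prop :=
  Tendsto (fun n : ℕ => (e n : ℝ) ^ (1 / (n : ℝ))) atTop (nhds δ)

/-- `F` and `G` have the same order of growth. -/
def SameGrowth (F G : ℕ → ℝ) : Prop :=
  ∃ c₁ c₂ : ℝ, 0 < c₁ ∧ 0 < c₂ ∧ ∃ c₃ : ℕ, ∀ n ≥ c₃, c₁ * F n ≤ G n ∧ G n ≤ c₂ * F n

theorem tendsto_one (e : ℕ → ℕ) (h1 : ∀ n, 1 ≤ n → 1 ≤ e n) (C : ℕ)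
    (h2 : ∀ n, 1 ≤ n → e n ≤ C * n ^ 18) : IsDynamicalDegree e 1 := by
  have hup : Tendsto (fun n : ℕ => ((C + 1 : ℕ) : ℝ) ^ (1 / (n : ℝ)) *
      ((n : ℝ) ^ (1 / (n : ℝ))) ^ 18) atTop (nhds (1 * 1 ^ 18)) := by
    have ha : Tendsto (fun n : ℕ => ((C + 1 : ℕ) : ℝ) ^ (1 / (n : ℝ))) atTop (nhds 1) := by
      have h3 : Tendsto (fun n : ℕ => (1 : ℝ) / (n : ℝ)) atTop (nhds 0) :=
        tendsto_one_div_atTop_nhds_zero_nat
      have h4 : ContinuousAt (fun x : ℝ => ((C + 1 : ℕ) : ℝ) ^ x) 0 :=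
        Real.continuousAt_const_rpow (by positivity)
      have h5 := h4.tendsto.comp h3
      simpa [Function.comp_def] using h5
    have hb : Tendsto (fun n : ℕ => (n : ℝ) ^ (1 / (n : ℝ))) atTop (nhds 1) :=
      tendsto_rpow_div.comp tendsto_natCast_atTop_atTop
    exact ha.mul (hb.pow 18)
  rw [one_pow, mul_one] at hup
  refine tendsto_of_tendsto_of_tendsto_of_le_of_le' tendsto_const_nhds hup ?_ ?_
  · filter_upwards [eventually_ge_atTop 1] with n hn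
    have h3 : (1 : ℝ) ≤ e n := by exact_mod_cast h1 n hn
    exact Real.one_le_rpow h3 (by positivity)
  · filter_upwards [eventually_ge_atTop 1] with n hn
    have h3 : (e n : ℝ) ≤ ((C + 1 : ℕ) : ℝ) * (n : ℝ) ^ 18 := by
      have := h2 n hn
      have h4 : e n ≤ (C + 1) * n ^ 18 := this.trans (Nat.mul_le_mul_right _ (by omega))
      exact_mod_cast h4
    have h5 : (e n : ℝ) ^ (1 / (n : ℝ)) ≤
        (((C + 1 : ℕ) : ℝ) * (n : ℝ) ^ 18) ^ (1 / (n : ℝ)) :=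
      Real.rpow_le_rpow (by positivity) h3 (by positivity)
    refine h5.trans (le_of_eq ?_)
    rw [Real.mul_rpow (by positivity) (by positivity)]
    congr 1
    rw [← Real.rpow_natCast, ← Real.rpow_natCast, ← Real.rpow_mul (by positivity),
      ← Real.rpow_mul (by positivity), mul_comm]

/-- **The conjecture fails for `N = 3`.** Over every field of characteristic zero there is a
dominant rational map `f : ℙ³ ⇢ ℙ³` with the following properties: its dynamical degree is `1`, its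
degree sequence `e n = deg (f ^ n)` is bounded by a polynomial, `e n ≥ c n ^ 4` for infinitely many
`n` with a constant `c > 0`, and `e n ≍ n ^ ℓ δ ^ n`, `δ = 1` the dynamical degree, is true for
no integer `ℓ` with `0 ≤ ℓ ≤ 3`. -/
theorem result (K : Type*) [Field K] [CharZero K] :
    ∃ f : RatMap K 3, f.Dominant ∧ ∃ e : ℕ → ℕ, IsDegreeSequence f e ∧
      (∃ C M : ℕ, ∀ n, 1 ≤ n → e n ≤ C * n ^ M) ∧
      (∃ c : ℝ, 0 < c ∧ ∃ᶠ n : ℕ in atTop, c * (n : ℝ) ^ 4 ≤ e n) ∧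
      IsDynamicalDegree e 1 ∧
      ∀ δ : ℝ, IsDynamicalDegree e δ → ∀ ℓ : ℕ, ℓ ≤ 3 →
        ¬ SameGrowth (fun n => (n : ℝ) ^ ℓ * δ ^ n) (fun n => (e n : ℝ)) := by
  obtain ⟨f, hf⟩ := Pool.Agent.X321.DG.exists_map (K := K)
  choose g hg using Pool.Agent.X321.DG.exists_iterate hf
  have hseq : IsDegreeSequence f fun n => (g n).degree := fun n _ =>
    ⟨⟨g n, hg n⟩, fun g' hg' => hg'.degree_eq (hg n)⟩
  obtain ⟨C, hC⟩ := Pool.Agent.X321.DG.upper hf
  obtain ⟨D, hD⟩ := Pool.Agent.X321.DG.lower hf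
  have hpos : ∀ n, 1 ≤ (g n).degree := fun n => Pool.Agent.X321.DG.degree_pos hf (hg n)
  have hdyn : IsDynamicalDegree (fun n => (g n).degree) 1 :=
    tendsto_one _ (fun n _ => hpos n) C fun n hn => hC n hn _ (hg n)
  -- the lower bound with a simpler constant
  have hlow : ∀ k : ℕ, 16 ^ k ≤ (D + 4) * (g (2 ^ k - 1)).degree := by
    intro k
    have h1 := hD k (2 ^ k - 1) (Nat.sub_add_cancel Nat.one_le_two_pow) _ (hg _)
    have h2 := hpos (2 ^ k - 1)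
    nlinarith
  refine ⟨f, Pool.Agent.X321.DG.dominant hf, _, hseq,
    ⟨C, 18, fun n hn => hC n hn _ (hg n)⟩, ?_, hdyn, ?_⟩
  · refine ⟨1 / ((D : ℝ) + 4), by positivity, ?_⟩
    rw [frequently_atTop]
    intro n₀
    refine ⟨2 ^ (n₀ + 1) - 1, ?_, ?_⟩
    · have : n₀ + 1 < 2 ^ (n₀ + 1) := Nat.lt_two_pow_self
      omega
    · have h1 := hlow (n₀ + 1)
      have h2 : (((2 ^ (n₀ + 1) - 1 : ℕ) : ℝ)) ^ 4 ≤ 16 ^ (n₀ + 1) := by
        have h3 : (2 ^ (n₀ + 1) - 1) ^ 4 ≤ (2 ^ (n₀ + 1)) ^ 4 :=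
          Nat.pow_le_pow_left (Nat.sub_le _ _) 4
        have h4 : (2 ^ (n₀ + 1)) ^ 4 = 16 ^ (n₀ + 1) := by
          rw [← pow_mul, mul_comm, pow_mul]; norm_num
        rw [h4] at h3
        exact_mod_cast h3
      have h5 : ((16 : ℝ) ^ (n₀ + 1)) ≤ ((D : ℝ) + 4) * (g (2 ^ (n₀ + 1) - 1)).degree := by
        exact_mod_cast h1
      have h6 : (0 : ℝ) < (D : ℝ) + 4 := by positivity
      rw [div_mul_eq_mul_div, one_mul, div_le_iff₀ h6]
      linarith
  · rintro δ hδ ℓ hℓ ⟨c₁, c₂, hc₁, hc₂, c₃, h⟩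
    have hδ1 : δ = 1 := tendsto_nhds_unique hδ hdyn
    subst hδ1
    -- growth along `n = 2 ^ k - 1`
    have key : ∀ k : ℕ, c₃ ≤ k → 1 ≤ k → (2 : ℝ) ^ k ≤ ((D : ℝ) + 4) * c₂ := by
      intro k hk hk1
      have hkn : k ≤ 2 ^ k - 1 := by
        have : k < 2 ^ k := Nat.lt_two_pow_self
        omega
      have h1 := (h (2 ^ k - 1) (hk.trans hkn)).2
      have h2 := hlow k
      have h3 : ((16 : ℝ) ^ k) ≤ ((D : ℝ) + 4) * (g (2 ^ k - 1)).degree := by
        exact_mod_cast h2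
      have h4 : (((2 ^ k - 1 : ℕ) : ℝ)) ^ ℓ ≤ 8 ^ k := by
        have h5 : (2 ^ k - 1) ^ ℓ ≤ (2 ^ k) ^ 3 :=
          (Nat.pow_le_pow_left (Nat.sub_le _ _) ℓ).trans
            (Nat.pow_le_pow_right (by positivity) hℓ)
        have h6 : (2 ^ k) ^ 3 = 8 ^ k := by
          rw [← pow_mul, mul_comm, pow_mul]; norm_num
        rw [h6] at h5
        exact_mod_cast h5
      simp only [one_pow, mul_one] at h1
      have h7 : (0 : ℝ) < (D : ℝ) + 4 := by positivity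
      have h8 : ((g (2 ^ k - 1)).degree : ℝ) ≤ c₂ * 8 ^ k :=
        h1.trans (mul_le_mul_of_nonneg_left h4 hc₂.le)
      have h9 : (16 : ℝ) ^ k = 8 ^ k * 2 ^ k := by
        rw [← mul_pow]; norm_num
      have h10 : (0 : ℝ) < 8 ^ k := by positivity
      have h11 : (8 : ℝ) ^ k * 2 ^ k ≤ 8 ^ k * (((D : ℝ) + 4) * c₂) := by
        calc (8 : ℝ) ^ k * 2 ^ k = 16 ^ k := h9.symm
          _ ≤ ((D : ℝ) + 4) * (g (2 ^ k - 1)).degree := h3
          _ ≤ ((D : ℝ) + 4) * (c₂ * 8 ^ k) := mul_le_mul_of_nonneg_left h8 h7.le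
          _ = 8 ^ k * (((D : ℝ) + 4) * c₂) := by ring
      exact le_of_mul_le_mul_left h11 h10
    obtain ⟨m, hm⟩ := pow_unbounded_of_one_lt (((D : ℝ) + 4) * c₂) (by norm_num : (1 : ℝ) < 2)
    have h1 := key (max m (c₃ + 1)) (by omega) (by omega)
    have h2 : (2 : ℝ) ^ m ≤ 2 ^ (max m (c₃ + 1)) :=
      pow_le_pow_right₀ (by norm_num) (le_max_left _ _)
    linarith

end Pool.Agent.Results.MP_55ef7c_ag.GrowthFour
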